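import Pool.Agent.H70.Betti.Lin

set_option autoImplicit false

/-!
# The algebras `A(t, e)`

For `2 ≤ k` and `t, e ∈ K`, the algebra `A(t, e) = R/I` has `I_1 = 0`, `I_n` = the forms of degree
`n` vanishing at the points `(0,1,0)`, `(0,0,1)`, `(t,1,1)` for `2 ≤ n ≤ k`, `I_{k+1}` = the forms
with `f(0,1,0) + f(0,0,1) + e f(t,1,1) = 0`, and `I_n = R_n` for `n ≥ k + 2`.
-/

open MvPolynomial Module

noncomputable section

namespace Pool.Agent.H70.Betti

universe u

variable {K : Type u} [Field K]

lemma degree_fin3 (m : Fin 3 →₀ ℕ) : m.degree = m 0 + m 1 + m 2 := by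
  rw [Finsupp.degree_eq_sum, Fin.sum_univ_three]

/-- The points. -/
def pt (t : K) (a : ℕ) : Fin 3 → K :=
  if a = 0 then ![0, 1, 0] else if a = 1 then ![0, 0, 1] else ![t, 1, 1]

/-- The linear forms defining the algebra `A(t, e)`. -/
def Lam (t e : K) (k n a : ℕ) : R K →ₗ[K] K :=
  if n = 0 then lcoeff K 0
  else if n = 1 then lcoeff K (Finsupp.single (Fin.ofNat 3 a) 1)
  else if n ≤ k then (aeval (pt t a)).toLinearMap
  else if n = k + 1 then (aeval (pt t 0)).toLinearMap + (aeval (pt t 1)).toLinearMap +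
    e • (aeval (pt t 2)).toLinearMap
  else 0

lemma T_zero (k : ℕ) : T k 0 = 1 := by simp [T]

lemma T_mid {k n : ℕ} (h0 : n ≠ 0) (h : n ≤ k) : T k n = 3 := by simp [T, h0, h]

lemma T_top (k : ℕ) : T k (k + 1) = 1 := by simp [T]

lemma T_big {k n : ℕ} (h : k + 2 ≤ n) : T k n = 0 := by
  unfold T
  rw [if_neg (by omega), if_neg (by omega), if_neg (by omega)]

lemma Lam_zero (t e : K) (k a : ℕ) (f : R K) : Lam t e k 0 a f = coeff 0 f := by
  simp [Lam, lcoeff]

lemma Lam_one (t e : K) (k : ℕ) (a : ℕ) (f : R K) :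
    Lam t e k 1 a f = coeff (Finsupp.single (Fin.ofNat 3 a) 1) f := by
  simp [Lam, lcoeff]

lemma Lam_mid (t e : K) {k n : ℕ} (a : ℕ) (h2 : 2 ≤ n) (h : n ≤ k) (f : R K) :
    Lam t e k n a f = eval (pt t a) f := by
  have h0 : n ≠ 0 := by omega
  have h1 : n ≠ 1 := by omega
  simp only [Lam, h0, h1, h, if_true, if_false, AlgHom.toLinearMap_apply]
  rfl

lemma Lam_top (t e : K) {k : ℕ} (a : ℕ) (hk : 1 ≤ k) (f : R K) :
    Lam t e k (k + 1) a f =
      eval (pt t 0) f + eval (pt t 1) f + e * eval (pt t 2) f := by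
  have h0 : k + 1 ≠ 0 := by omega
  have h1 : k + 1 ≠ 1 := by omega
  have h2 : ¬ (k + 1 ≤ k) := by omega
  simp only [Lam, h0, h1, h2, if_true, if_false, LinearMap.add_apply, LinearMap.smul_apply,
    AlgHom.toLinearMap_apply, smul_eq_mul]
  rfl

lemma Lam_big (t e : K) {k n : ℕ} (a : ℕ) (h : k + 2 ≤ n) (hk : 1 ≤ k) (f : R K) :
    Lam t e k n a f = 0 := by
  unfold Lam
  rw [if_neg (by omega), if_neg (by omega), if_neg (by omega), if_neg (by omega)]
  rfl

lemma hc_mul_X_zero (f : R K) (j : Fin 3) : homogeneousComponent 0 (f * X j) = 0 := by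
  rw [homogeneousComponent_zero, coeff_mul_X']
  simp

lemma hc_mul_X (f : R K) (j : Fin 3) (n : ℕ) :
    homogeneousComponent (n + 1) (f * X j) = homogeneousComponent n f * X j := by
  ext m
  rw [coeff_homogeneousComponent, coeff_mul_X', coeff_mul_X', coeff_homogeneousComponent]
  by_cases hj : j ∈ m.support
  · rw [if_pos hj, if_pos hj]
    have hd : (m - Finsupp.single j 1).degree + 1 = m.degree := by
      have hm : (m - Finsupp.single j 1) + Finsupp.single j 1 = m := by
        apply tsub_add_cancel_of_le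
        rw [Finsupp.single_le_iff]
        exact Nat.one_le_iff_ne_zero.2 (Finsupp.mem_support_iff.1 hj)
      conv_rhs => rw [← hm, map_add, Finsupp.degree_single]
    by_cases h : m.degree = n + 1
    · rw [if_pos h, if_pos (by omega)]
    · rw [if_neg h, if_neg (by omega)]
  · rw [if_neg hj, if_neg hj]
    simp

lemma eq_zero_of_deg_zero {f : R K} (hf : f ∈ forms K 0) (h : coeff 0 f = 0) : f = 0 := by
  ext m
  by_cases hm : m = 0
  · rw [hm, h, coeff_zero]
  · rw [coeff_zero]
    refine IsHomogeneous.coeff_eq_zero hf ?_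
    rw [Ne, Finsupp.degree_eq_zero_iff]
    exact hm

lemma single_of_degree_one {m : Fin 3 →₀ ℕ} (h : m.degree = 1) :
    ∃ a < 3, m = Finsupp.single (Fin.ofNat 3 a) 1 := by
  rw [degree_fin3] at h
  have : (m 0 = 1 ∧ m 1 = 0 ∧ m 2 = 0) ∨ (m 0 = 0 ∧ m 1 = 1 ∧ m 2 = 0) ∨
      (m 0 = 0 ∧ m 1 = 0 ∧ m 2 = 1) := by omega
  rcases this with ⟨h0, h1, h2⟩ | ⟨h0, h1, h2⟩ | ⟨h0, h1, h2⟩
  · refine ⟨0, by norm_num, ?_⟩
    ext j; fin_cases j <;> simp [h0, h1, h2, Fin.ofNat]
  · refine ⟨1, by norm_num, ?_⟩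
    ext j; fin_cases j <;> simp [h0, h1, h2, Fin.ofNat]
  · refine ⟨2, by norm_num, ?_⟩
    ext j; fin_cases j <;> simp [h0, h1, h2, Fin.ofNat]

lemma eq_zero_of_deg_one {f : R K} (hf : f ∈ forms K 1)
    (h : ∀ a < 3, coeff (Finsupp.single (Fin.ofNat 3 a) 1) f = 0) : f = 0 := by
  ext m
  rw [coeff_zero]
  by_cases hm : m.degree = 1
  · obtain ⟨a, ha, rfl⟩ := single_of_degree_one hm
    exact h a ha
  · exact IsHomogeneous.coeff_eq_zero hf hm

lemma Lam_mul_X (t e : K) {k : ℕ} (hk : 2 ≤ k) {n : ℕ} {g : R K} (hg : g ∈ forms K n)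
    (h : ∀ a < T k n, Lam t e k n a g = 0) (j : Fin 3) :
    ∀ a < T k (n + 1), Lam t e k (n + 1) a (g * X j) = 0 := by
  intro a ha
  rcases Nat.lt_or_ge n 2 with hn | hn
  · have hg0 : g = 0 := by
      interval_cases n
      · refine eq_zero_of_deg_zero hg ?_
        rw [← Lam_zero t e k 0 g]
        exact h 0 (by rw [T_zero]; norm_num)
      · refine eq_zero_of_deg_one hg fun a ha => ?_
        rw [← Lam_one t e k a g]
        exact h a (by rw [T_mid (by norm_num) (by omega)]; exact ha)
    rw [hg0, zero_mul, map_zero]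
  · rcases Nat.lt_or_ge k n with hkn | hkn
    · exact Lam_big t e a (by omega) (by omega) _
    · have hT := T_mid (k := k) (n := n) (by omega) hkn
      have hv : ∀ a < 3, eval (pt t a) g = 0 := fun a ha => by
        rw [← Lam_mid t e a hn hkn]; exact h a (by rw [hT]; exact ha)
      rcases Nat.lt_or_ge n k with hkn' | hkn'
      · have hT' := T_mid (k := k) (n := n + 1) (by omega) hkn'
        rw [Lam_mid t e a (by omega) hkn', map_mul, hv a (by omega), zero_mul]
      · have : n = k := by omega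
        subst this
        rw [Lam_top t e a (by omega), map_mul, map_mul, map_mul, hv 0 (by norm_num),
          hv 1 (by norm_num), hv 2 (by norm_num)]
        ring

/-- The ideal of `A(t, e)`. -/
def alg (t e : K) {k : ℕ} (hk : 2 ≤ k) : Ideal (R K) where
  carrier := {f | ∀ n, ∀ a < T k n, Lam t e k n a (homogeneousComponent n f) = 0}
  add_mem' := by
    intro f g hf hg n a ha
    rw [map_add, map_add, hf n a ha, hg n a ha, add_zero]
  zero_mem' := by
    intro n a ha
    rw [map_zero, map_zero]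
  smul_mem' := by
    intro c f hf
    induction c using MvPolynomial.induction_on with
    | C c =>
      intro n a ha
      rw [smul_eq_mul, homogeneousComponent_C_mul, ← smul_eq_C_mul, map_smul, hf n a ha,
        smul_zero]
    | add p q hp hq =>
      intro n a ha
      rw [add_smul, map_add, map_add, hp n a ha, hq n a ha, add_zero]
    | mul_X p j hp =>
      intro n a ha
      have : (p * X j) • f = (p • f) * X j := by
        rw [smul_eq_mul, smul_eq_mul]; ring
      rw [this]
      cases n with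
      | zero => rw [hc_mul_X_zero, map_zero]
      | succ n =>
        rw [hc_mul_X]
        exact Lam_mul_X t e hk (homogeneousComponent_mem n _) (fun a ha => hp n a ha) j a ha

lemma mem_alg {t e : K} {k : ℕ} {hk : 2 ≤ k} {n : ℕ} {f : R K} (hf : f ∈ forms K n) :
    f ∈ alg t e hk ↔ ∀ a < T k n, Lam t e k n a f = 0 := by
  constructor
  · intro h a ha
    have := h n a ha
    rwa [homogeneousComponent_of_mem hf, if_pos rfl] at this
  · intro h m a ha
    rw [homogeneousComponent_of_mem hf]
    by_cases hm : m = n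
    · subst hm; rw [if_pos rfl]; exact h a ha
    · rw [if_neg (by omega), map_zero]

/-- The representing matrices of `A(t, e)`. -/
def coords (t e : K) (k : ℕ) : Coord k → K := fun c =>
  Lam t e k c.1.degree c.2.1 (monomial c.1 1)

/-- The representing linear maps of `A(t, e)`. -/
def frame (t e : K) (k n : ℕ) : forms K n →ₗ[K] (Fin (T k n) → K) :=
  LinearMap.pi fun a : Fin (T k n) => (Lam t e k n a.1) ∘ₗ (forms K n).subtype

lemma frame_eq_zero {t e : K} {k : ℕ} {hk : 2 ≤ k} {n : ℕ} (f : forms K n) :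
    frame t e k n f = 0 ↔ (f : R K) ∈ alg t e hk := by
  rw [mem_alg f.2]
  constructor
  · intro h a ha
    exact congrFun h ⟨a, ha⟩
  · intro h
    funext a
    exact h a.1 a.2

/-- `row` as a linear functional. -/
def rowL {k : ℕ} (c : Coord k → K) (a : ℕ) : R K →ₗ[K] K :=
  (basisMonomials (Fin 3) K).constr K fun m => if h : a < T k m.degree then c ⟨m, a, h⟩ else 0

lemma rowL_apply {k : ℕ} (c : Coord k → K) (a : ℕ) (f : R K) : rowL c a f = row c a f := by
  unfold rowL row
  rw [Module.Basis.constr_apply, Finsupp.sum]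
  refine Finset.sum_congr rfl fun m _ => ?_
  by_cases h : a < T k m.degree
  · rw [dif_pos h, dif_pos h]; rfl
  · rw [dif_neg h, dif_neg h, smul_zero]

/-- A linear functional which agrees with the entries on monomials of degree `n` agrees with
`row` on forms of degree `n`. -/
lemma row_eq {k n : ℕ} (c : Coord k → K) {a : ℕ} (ha : a < T k n) (L : R K →ₗ[K] K)
    (h : ∀ (m : Fin 3 →₀ ℕ) (hm : m.degree = n), c ⟨m, a, by rw [hm]; exact ha⟩ =
      L (monomial m 1)) {f : R K} (hf : f ∈ forms K n) : row c a f = L f := by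
  conv_rhs => rw [f.as_sum]
  rw [map_sum]
  unfold row
  refine Finset.sum_congr rfl fun m hm => ?_
  have hd : m.degree = n := by
    by_contra hne
    exact (mem_support_iff.1 hm) (IsHomogeneous.coeff_eq_zero hf hne)
  have ha' : a < T k m.degree := by rw [hd]; exact ha
  rw [dif_pos ha', h m hd]
  have : monomial m (coeff m f) = coeff m f • (monomial m 1 : R K) := by
    rw [smul_monomial, smul_eq_mul, mul_one]
  rw [this, map_smul, smul_eq_mul]

lemma row_coords (t e : K) {k n a : ℕ} (ha : a < T k n) {f : R K} (hf : f ∈ forms K n) :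
    row (coords t e k) a f = Lam t e k n a f :=
  row_eq _ ha _ (fun m hm => by subst hm; rfl) hf

/-- A map with the right kernel computes the dimension of `A_n`. -/
lemma finrank_gr {I : Ideal (R K)} {n : ℕ} {W : Type u} [AddCommGroup W] [Module K W]
    (L : forms K n →ₗ[K] W) (h : ∀ f : forms K n, L f = 0 ↔ (f : R K) ∈ I) :
    hilb I n = finrank K (LinearMap.range L) := by
  have e : gr I n = LinearMap.range ((proj I).toLinearMap ∘ₗ (forms K n).subtype) := by
    rw [LinearMap.range_comp, Submodule.range_subtype]; rfl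
  unfold hilb
  rw [e]
  refine finrank_range_eq_of_ker_eq _ _ fun f => ?_
  rw [h f]
  exact proj_eq_zero I

lemma X_pow_mem (j : Fin 3) (n : ℕ) : (X j ^ n : R K) ∈ forms K n := by
  have := (isHomogeneous_X K j).pow n
  rwa [one_mul] at this

lemma X12_mem {n : ℕ} (hn : 1 ≤ n) : (X 1 * X 2 ^ (n - 1) : R K) ∈ forms K n := by
  have := (isHomogeneous_X K (1 : Fin 3)).mul (X_pow_mem (K := K) 2 (n - 1))
  rwa [show 1 + (n - 1) = n by omega] at this

lemma pt_zero (t : K) : pt t 0 = ![0, 1, 0] := by simp [pt]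
lemma pt_one (t : K) : pt t 1 = ![0, 0, 1] := by simp [pt]
lemma pt_two (t : K) : pt t 2 = ![t, 1, 1] := by simp [pt]

/-- Interpolation at the three points. -/
lemma exists_interp (t : K) {n : ℕ} (hn : 2 ≤ n) (w : ℕ → K) :
    ∃ f ∈ forms K n, ∀ a < 3, eval (pt t a) f = w a := by
  refine ⟨w 0 • X 1 ^ n + w 1 • X 2 ^ n + (w 2 - w 0 - w 1) • (X 1 * X 2 ^ (n - 1)),
    add_mem (add_mem (Submodule.smul_mem _ _ (X_pow_mem 1 n))
      (Submodule.smul_mem _ _ (X_pow_mem 2 n)))
      (Submodule.smul_mem _ _ (X12_mem (by omega))), ?_⟩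
  have hn0 : n ≠ 0 := by omega
  have hn1 : n - 1 ≠ 0 := by omega
  intro a ha
  interval_cases a
  · rw [pt_zero]
    simp [smul_eval, zero_pow hn0, zero_pow hn1]
  · rw [pt_one]
    simp [smul_eval, zero_pow hn0]
  · rw [pt_two]
    simp [smul_eval]

lemma exists_linear (w : ℕ → K) :
    ∃ f ∈ forms K 1, ∀ a < 3, coeff (Finsupp.single (Fin.ofNat 3 a) 1) f = w a := by
  refine ⟨w 0 • X 0 + w 1 • X 1 + w 2 • X 2, ?_, ?_⟩
  · exact add_mem (add_mem (Submodule.smul_mem _ _ (isHomogeneous_X K 0))
      (Submodule.smul_mem _ _ (isHomogeneous_X K 1)))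
      (Submodule.smul_mem _ _ (isHomogeneous_X K 2))
  · intro a ha
    interval_cases a <;>
      simp [coeff_X, Finsupp.single_left_inj, Fin.ofNat]

lemma frame_surjective (t e : K) {k : ℕ} (hk : 2 ≤ k) (n : ℕ) :
    Function.Surjective (frame t e k n) := by
  intro w
  suffices h : ∃ f ∈ forms K n, ∀ (a : ℕ) (ha : a < T k n), Lam t e k n a f = w ⟨a, ha⟩ by
    obtain ⟨f, hf, h⟩ := h
    exact ⟨⟨f, hf⟩, funext fun a => h a.1 a.2⟩
  rcases Nat.lt_or_ge n 2 with hn | hn
  · interval_cases n
    · refine ⟨C (w ⟨0, by rw [T_zero]; norm_num⟩), isHomogeneous_C _ _, fun a ha => ?_⟩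
      have : a = 0 := by rw [T_zero] at ha; omega
      subst this
      rw [Lam_zero]; simp
    · have hT := T_mid (k := k) (n := 1) (by norm_num) (by omega)
      obtain ⟨f, hf, h⟩ := exists_linear (K := K) fun a => if h : a < T k 1 then w ⟨a, h⟩ else 0
      refine ⟨f, hf, fun a ha => ?_⟩
      rw [Lam_one, h a (by omega), dif_pos ha]
  · rcases Nat.lt_or_ge k n with hkn | hkn
    · rcases Nat.lt_or_ge (k + 1) n with hkn' | hkn'
      · refine ⟨0, zero_mem _, fun a ha => ?_⟩
        rw [T_big (by omega)] at ha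
        omega
      · have : n = k + 1 := by omega
        subst this
        have hT := T_top k
        obtain ⟨f, hf, h⟩ := exists_interp t hn
          fun a => if a = 0 then w ⟨0, by rw [hT]; norm_num⟩ else 0
        refine ⟨f, hf, fun a ha => ?_⟩
        have ha0 : a = 0 := by omega
        subst ha0
        rw [Lam_top t e 0 (by omega), h 0 (by norm_num), h 1 (by norm_num), h 2 (by norm_num)]
        simp
    · have hT := T_mid (k := k) (n := n) (by omega) hkn
      obtain ⟨f, hf, h⟩ := exists_interp t hn fun a => if h : a < T k n then w ⟨a, h⟩ else 0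
      refine ⟨f, hf, fun a ha => ?_⟩
      rw [Lam_mid t e a hn hkn, h a (by omega), dif_pos ha]

/-- The point `A(t, e)` of `G_T`. -/
def point (t e : K) {k : ℕ} (hk : 2 ≤ k) : GT K k where
  I := alg t e hk
  homog := by
    intro f hf n
    rw [mem_alg (homogeneousComponent_mem n f)]
    exact hf n
  hilb_eq := by
    intro n
    rw [finrank_gr (frame t e k n) fun f => frame_eq_zero f,
      LinearMap.range_eq_top.2 (frame_surjective t e hk n), finrank_top]
    simp

lemma represents_point (t e : K) {k : ℕ} (hk : 2 ≤ k) :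
    Represents (coords t e k) (point t e hk) := by
  intro n f hf
  change f ∈ alg t e hk ↔ _
  rw [mem_alg hf]
  exact forall_congr' fun a => forall_congr' fun ha => by rw [row_coords t e ha hf]

end Pool.Agent.H70.Betti
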