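import Pool.Agent.H70.Betti.Equal

set_option autoImplicit false

/-!
# The closed set of algebras with degenerate pairing `A_2 × A_{k-1} → A_{k+1}`
-/

open MvPolynomial Module

noncomputable section

namespace Pool.Agent.H70.Betti

universe u

variable {K : Type u} [Field K]

/-- The quotient map on forms of degree `n`. -/
def projF (I : Ideal (R K)) (n : ℕ) : forms K n →ₗ[K] gr I n :=
  ((proj I).toLinearMap ∘ₗ (forms K n).subtype).codRestrict (gr I n) fun f => mk_mem_gr f.2

/-- The projection to the forms of degree `n`. -/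
def hcF (n : ℕ) : R K →ₗ[K] forms K n :=
  (homogeneousComponent n).codRestrict (forms K n) fun f => homogeneousComponent_mem n f

lemma hcF_apply {n : ℕ} {f : R K} (hf : f ∈ forms K n) : hcF n f = ⟨f, hf⟩ := by
  apply Subtype.ext
  change homogeneousComponent n f = f
  rw [homogeneousComponent_of_mem hf, if_pos rfl]

/-- Every point of `G_T` is represented by matrices. -/
lemma exists_represents {k : ℕ} (A : GT K k) : ∃ c : Coord k → K, Represents c A := by
  have h : ∀ n, Nonempty (gr A.I n ≃ₗ[K] (Fin (T k n) → K)) := fun n =>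
    FiniteDimensional.nonempty_linearEquiv_of_finrank_eq (by
      change hilb A.I n = _
      rw [A.hilb_eq n]; simp)
  let e := fun n => Classical.choice (h n)
  let L : (n : ℕ) → Fin (T k n) → (R K →ₗ[K] K) := fun n a =>
    LinearMap.proj a ∘ₗ (e n).toLinearMap ∘ₗ projF A.I n ∘ₗ hcF n
  refine ⟨fun x => L x.1.degree x.2 (monomial x.1 1), fun n f hf => ?_⟩
  have hrow : ∀ (a : ℕ) (ha : a < T k n),
      row (fun x : Coord k => L x.1.degree x.2 (monomial x.1 1)) a f =
        e n (projF A.I n ⟨f, hf⟩) ⟨a, ha⟩ := by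
    intro a ha
    rw [row_eq _ ha (L n ⟨a, ha⟩) (fun m hm => by subst hm; rfl) hf]
    change e n (projF A.I n (hcF n f)) ⟨a, ha⟩ = _
    rw [hcF_apply hf]
  have h1 : f ∈ A.I ↔ projF A.I n ⟨f, hf⟩ = 0 := by
    rw [← proj_eq_zero]
    exact (Subtype.ext_iff (a1 := projF A.I n ⟨f, hf⟩) (a2 := 0)).symm
  rw [h1, ← LinearEquiv.map_eq_zero_iff (e n)]
  constructor
  · intro h2 a ha
    rw [hrow a ha, h2]; rfl
  · intro h2
    funext a
    rw [← hrow a.1 a.2]
    exact h2 a.1 a.2

/-- The coordinate of a monomial `u + w` of degree `k + 1`. -/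
def topCoord {k : ℕ} (hk : 1 ≤ k) (u : {m : Fin 3 →₀ ℕ // m.degree = 2})
    (w : {m : Fin 3 →₀ ℕ // m.degree = k - 1}) : Coord k :=
  ⟨u.1 + w.1, 0, by
    have : (u.1 + w.1).degree = k + 1 := by rw [map_add, u.2, w.2]; omega
    rw [this, T_top]; norm_num⟩

/-- The `3 × 3` minors of the catalecticant matrix `R_2 × R_{k-1} → K`. -/
def minor {k : ℕ} (hk : 1 ≤ k) (u : Fin 3 → {m : Fin 3 →₀ ℕ // m.degree = 2})
    (w : Fin 3 → {m : Fin 3 →₀ ℕ // m.degree = k - 1}) : MvPolynomial (Coord k) K :=
  Matrix.det (Matrix.of fun i j => X (topCoord hk (u i) (w j)))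

lemma eval_minor {k : ℕ} (hk : 1 ≤ k) (u : Fin 3 → {m : Fin 3 →₀ ℕ // m.degree = 2})
    (w : Fin 3 → {m : Fin 3 →₀ ℕ // m.degree = k - 1}) (x : Coord k → K) :
    eval x (minor hk u w) = Matrix.det (Matrix.of fun i j => x (topCoord hk (u i) (w j))) := by
  unfold minor
  rw [RingHom.map_det]
  congr 1
  ext i j
  simp

/-- The top functional. -/
def topFun {k : ℕ} (c : Coord k → K) : R K →ₗ[K] K := rowL c 0

lemma topFun_eq_zero {k : ℕ} {c : Coord k → K} {A : GT K k} (h : Represents c A)
    {f : R K} (hf : f ∈ forms K (k + 1)) : topFun c f = 0 ↔ f ∈ A.I := by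
  rw [h (k + 1) f hf, T_top]
  unfold topFun
  rw [rowL_apply]
  constructor
  · intro h0 a ha
    have : a = 0 := by omega
    subst this
    exact h0
  · intro h0
    exact h0 0 (by norm_num)

/-- Two representations of the same point have proportional top functionals. -/
lemma topFun_prop {k : ℕ} {c c' : Coord k → K} {A : GT K k} (h : Represents c A)
    (h' : Represents c' A) : ∃ z : K, ∀ f ∈ forms K (k + 1), topFun c f = z * topFun c' f := by
  by_cases h0 : ∀ f ∈ forms K (k + 1), topFun c' f = 0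
  · refine ⟨0, fun f hf => ?_⟩
    rw [zero_mul, topFun_eq_zero h hf, ← topFun_eq_zero h' hf]
    exact h0 f hf
  · push Not at h0
    obtain ⟨g, hg', hg⟩ := h0
    refine ⟨topFun c g / topFun c' g, fun f hf => ?_⟩
    have hmem : topFun c' f • g + (- topFun c' g) • f ∈ forms K (k + 1) :=
      add_mem (Submodule.smul_mem _ _ hg') (Submodule.smul_mem _ _ hf)
    have h1 : topFun c' (topFun c' f • g + (- topFun c' g) • f) = 0 := by
      rw [map_add, map_smul, map_smul, smul_eq_mul, smul_eq_mul]; ring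
    rw [topFun_eq_zero h' hmem, ← topFun_eq_zero h hmem, map_add, map_smul, map_smul,
      smul_eq_mul, smul_eq_mul] at h1
    field_simp
    linear_combination -h1

/-- The degeneracy locus. -/
def degen {k : ℕ} (hk : 1 ≤ k) : Set (GT K k) :=
  {A | ∃ c : Coord k → K, Represents c A ∧ ∀ u w, eval c (minor hk u w) = 0}

lemma top_mem {k : ℕ} (hk : 1 ≤ k) (u : {m : Fin 3 →₀ ℕ // m.degree = 2})
    (w : {m : Fin 3 →₀ ℕ // m.degree = k - 1}) :
    (monomial (u.1 + w.1) 1 : R K) ∈ forms K (k + 1) :=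
  isHomogeneous_monomial 1 (by rw [map_add, u.2, w.2]; omega)

lemma coord_topCoord {k : ℕ} (hk : 1 ≤ k) (c : Coord k → K)
    (u : {m : Fin 3 →₀ ℕ // m.degree = 2}) (w : {m : Fin 3 →₀ ℕ // m.degree = k - 1}) :
    c (topCoord hk u w) = topFun c (monomial (u.1 + w.1) 1) := by
  unfold topFun rowL
  have h : (monomial (u.1 + w.1) 1 : R K) = basisMonomials (Fin 3) K (u.1 + w.1) := rfl
  have hd : (u.1 + w.1).degree = k + 1 := by rw [map_add, u.2, w.2]; omega
  rw [h, Module.Basis.constr_basis, dif_pos (by rw [hd, T_top]; norm_num)]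
  rfl

lemma zclosed_degen {k : ℕ} (hk : 1 ≤ k) : ZClosed (degen hk : Set (GT K k)) := by
  refine ⟨{p | ∃ u w, p = minor hk u w}, fun A c hc => ?_⟩
  constructor
  · rintro ⟨c', hc', h⟩ p ⟨u, w, rfl⟩
    obtain ⟨z, hz⟩ := topFun_prop hc hc'
    rw [eval_minor]
    have h1 := h u w
    rw [eval_minor] at h1
    have : (Matrix.of fun i j => c (topCoord hk (u i) (w j))) =
        z • (Matrix.of fun i j => c' (topCoord hk (u i) (w j))) := by
      ext i j
      rw [Matrix.smul_apply, Matrix.of_apply, Matrix.of_apply, coord_topCoord hk c,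
        coord_topCoord hk c', smul_eq_mul]
      exact hz _ (top_mem hk _ _)
    rw [this, Matrix.det_smul, h1, mul_zero]
  · intro h
    exact ⟨c, hc, fun u w => h _ ⟨u, w, rfl⟩⟩

/-- If some form `q ∉ I` of degree two satisfies `q R_{k-1} ⊆ I`, then the point lies in the
degeneracy locus. -/
lemma mem_degen {k : ℕ} (hk : 2 ≤ k) (A : GT K k) {q : R K} (hq : q ∈ forms K 2) (hqA : q ∉ A.I)
    (h : ∀ w ∈ forms K (k - 1), q * w ∈ A.I) : A ∈ (degen (by omega : 1 ≤ k) : Set (GT K k)) := by
  obtain ⟨c, hc⟩ := exists_represents A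
  refine ⟨c, hc, fun u w => ?_⟩
  rw [eval_minor]
  by_contra hdet
  -- the classes of the monomials `u i` form a basis of `A_2`
  let um : Fin 3 → R K := fun i => monomial (u i).1 1
  let wm : Fin 3 → R K := fun j => monomial (w j).1 1
  have hum : ∀ i, um i ∈ forms K 2 := fun i => isHomogeneous_monomial 1 (u i).2
  have hwm : ∀ i, wm i ∈ forms K (k - 1) := fun i => isHomogeneous_monomial 1 (w i).2
  have hmul : ∀ f ∈ forms K 2, ∀ j : Fin 3, f * wm j ∈ forms K (k + 1) := by
    intro f hf j
    have := IsHomogeneous.mul hf (hwm j)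
    rwa [show 2 + (k - 1) = k + 1 by omega] at this
  let P : R K →ₗ[K] (Fin 3 → K) := LinearMap.pi fun j =>
    topFun c ∘ₗ LinearMap.mulRight K (wm j)
  have hP : ∀ i j, P (um i) j = c (topCoord (by omega) (u i) (w j)) := by
    intro i j
    rw [coord_topCoord _ c]
    change topFun c (um i * wm j) = topFun c _
    congr 1
    simp [um, wm, monomial_mul]
  -- linear combinations of the rows
  have hrow : ∀ z : Fin 3 → K, P (∑ i, z i • um i) = Matrix.vecMul z
      (Matrix.of fun i j => c (topCoord (by omega) (u i) (w j))) := by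
    intro z
    funext j
    rw [map_sum, Finset.sum_apply, Matrix.vecMul, dotProduct]
    refine Finset.sum_congr rfl fun i _ => ?_
    rw [map_smul, Pi.smul_apply, hP, smul_eq_mul, Matrix.of_apply]
  have hPI : ∀ f ∈ forms K 2, f ∈ A.I → P f = 0 := by
    intro f hf hfI
    funext j
    exact (topFun_eq_zero hc (hmul f hf j)).2 (A.I.mul_mem_right _ hfI)
  have hPq : P q = 0 := by
    funext j
    exact (topFun_eq_zero hc (hmul q hq j)).2 (h _ (hwm j))
  have hzero : ∀ z : Fin 3 → K, P (∑ i, z i • um i) = 0 → z = 0 := by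
    intro z hz
    rw [hrow] at hz
    exact Matrix.eq_zero_of_vecMul_eq_zero hdet hz
  have hsum : ∀ z : Fin 3 → K, (∑ i, z i • um i) ∈ forms K 2 := fun z =>
    sum_mem fun i _ => Submodule.smul_mem _ _ (hum i)
  let b : Fin 3 → gr A.I 2 := fun i => ⟨proj A.I (um i), mk_mem_gr (hum i)⟩
  have hb : LinearIndependent K b := by
    rw [Fintype.linearIndependent_iff]
    intro z hz i
    have h1 : (∑ i, z i • um i) ∈ A.I := by
      rw [← proj_eq_zero]
      have := congrArg Subtype.val hz
      simp only [b, Submodule.coe_sum, Submodule.coe_smul, Submodule.coe_zero] at this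
      rw [map_sum, ← this]
      refine Finset.sum_congr rfl fun i _ => ?_
      rw [map_smul]
    exact congrFun (hzero z (hPI _ (hsum z) h1)) i
  have hspan : Submodule.span K (Set.range b) = ⊤ := by
    apply hb.span_eq_top_of_card_eq_finrank'
    have : finrank K (gr A.I 2) = T k 2 := A.hilb_eq 2
    rw [this, T_mid (by norm_num) hk]; rfl
  have hqs : (⟨proj A.I q, mk_mem_gr hq⟩ : gr A.I 2) ∈
      Submodule.span K (Set.range b) := by rw [hspan]; trivial
  rw [Submodule.mem_span_range_iff_exists_fun] at hqs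
  obtain ⟨z, hz⟩ := hqs
  have h1 : (∑ i, z i • um i) - q ∈ A.I := by
    rw [← proj_eq_zero]
    have := congrArg Subtype.val hz
    simp only [b, Submodule.coe_sum, Submodule.coe_smul] at this
    rw [map_sub, map_sum, sub_eq_zero, ← this]
    refine Finset.sum_congr rfl fun i _ => ?_
    rw [map_smul]
  have h2 := hPI _ (sub_mem (hsum z) hq) h1
  rw [map_sub, hPq, sub_zero] at h2
  have h3 := hzero z h2
  apply hqA
  rw [← proj_eq_zero]
  have := congrArg Subtype.val hz
  rw [h3] at this
  simpa using this.symm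

/-- `A(0, 1)` is not in the degeneracy locus. -/
lemma not_mem_degen {k : ℕ} (hk : 3 ≤ k) :
    point 0 1 (by omega : 2 ≤ k) ∉ (degen (by omega : 1 ≤ k) : Set (GT K k)) := by
  intro h
  have hrep := represents_point (0 : K) 1 (by omega : 2 ≤ k)
  obtain ⟨c', hc', hd⟩ := h
  obtain ⟨z, hz⟩ := topFun_prop hrep hc'
  have key : ∀ (u : Fin 3 → {m : Fin 3 →₀ ℕ // m.degree = 2})
      (w : Fin 3 → {m : Fin 3 →₀ ℕ // m.degree = k - 1}), Matrix.det (Matrix.of fun i j =>
      coords (0 : K) 1 k (topCoord (by omega : 1 ≤ k) (u i) (w j))) = 0 := by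
    intro u w
    have h1 := hd u w
    rw [eval_minor] at h1
    have : (Matrix.of fun i j =>
        coords (0 : K) 1 k (topCoord (by omega : 1 ≤ k) (u i) (w j))) =
        z • (Matrix.of fun i j => c' (topCoord (by omega : 1 ≤ k) (u i) (w j))) := by
      ext i j
      rw [Matrix.smul_apply, Matrix.of_apply, Matrix.of_apply, coord_topCoord _ (coords 0 1 k),
        coord_topCoord _ c', smul_eq_mul]
      exact hz _ (top_mem (by omega) _ _)
    rw [this, Matrix.det_smul, h1, mul_zero]
  have hval : ∀ (u : {m : Fin 3 →₀ ℕ // m.degree = 2}) (w : {m : Fin 3 →₀ ℕ // m.degree = k - 1}),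
      coords (0 : K) 1 k (topCoord (by omega : 1 ≤ k) u w) =
      eval (pt (0 : K) 0) (monomial (u.1 + w.1) 1) + eval (pt (0 : K) 1) (monomial (u.1 + w.1) 1)
        + eval (pt (0 : K) 2) (monomial (u.1 + w.1) 1) := by
    intro u w
    have hd : (u.1 + w.1).degree = k + 1 := by rw [map_add, u.2, w.2]; omega
    change Lam 0 1 k (u.1 + w.1).degree 0 _ = _
    rw [hd, Lam_top _ _ _ (by omega), one_mul]
    rfl
  let e : ℕ → ℕ → (Fin 3 →₀ ℕ) := fun a b => Finsupp.single 1 a + Finsupp.single 2 b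
  have he : ∀ a b, (e a b).degree = a + b := by
    intro a b
    simp only [e]
    rw [map_add, Finsupp.degree_single, Finsupp.degree_single]
  have hev0 : ∀ a b, eval (pt (0 : K) 0) (monomial (e a b) 1) = 0 ^ b := by
    intro a b
    rw [eval_monomial, pt_zero]
    simp [e, Finsupp.prod_fintype, Fin.prod_univ_three]
  have hev1 : ∀ a b, eval (pt (0 : K) 1) (monomial (e a b) 1) = 0 ^ a := by
    intro a b
    rw [eval_monomial, pt_one]
    simp [e, Finsupp.prod_fintype, Fin.prod_univ_three]
  have hev2 : ∀ a b, eval (pt (0 : K) 2) (monomial (e a b) 1) = 1 := by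
    intro a b
    rw [eval_monomial, pt_two]
    simp [e, Finsupp.prod_fintype, Fin.prod_univ_three]
  have hadd : ∀ a b c d, e a b + e c d = e (a + c) (b + d) := by
    intro a b c d
    simp only [e, Finsupp.single_add]
    abel
  let u : Fin 3 → {m : Fin 3 →₀ ℕ // m.degree = 2} :=
    ![⟨e 2 0, he 2 0⟩, ⟨e 0 2, he 0 2⟩, ⟨e 1 1, he 1 1⟩]
  let w : Fin 3 → {m : Fin 3 →₀ ℕ // m.degree = k - 1} :=
    ![⟨e (k - 1) 0, he _ _⟩, ⟨e 0 (k - 1), by rw [he]; omega⟩,
      ⟨e 1 (k - 2), by rw [he]; omega⟩]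
  have hfin := key u w
  have hk1 : k - 1 ≠ 0 := by omega
  have hk2 : k - 2 ≠ 0 := by omega
  rw [Matrix.det_fin_three] at hfin
  simp only [Matrix.of_apply, hval] at hfin
  simp only [u, w, Matrix.cons_val_zero, Matrix.cons_val_one, Matrix.cons_val, hadd, hev0, hev1,
    hev2] at hfin
  simp [hk1, hk2] at hfin
  exact one_ne_zero (α := K) (by linear_combination hfin)

end Pool.Agent.H70.Betti
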