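import Mathlib

set_option autoImplicit false

/-!
# Betti strata of graded quotients of `K[x, y, z]` with Hilbert function `(1, 3^k, 1)`

* `A I = R/I`, `R = K[x, y, z]`, and `gr I n` is its graded piece `A_n`.
* `betti I i j` is the graded Betti number `β_{i,j}(A) = dim Tor_i^R(A, K)_j`, computed as the
  dimension of the degree `j` part of the Koszul homology `H_i(x, y, z; A)`.
* `GT K k` is the set `G_T` of graded quotients with Hilbert function `T = (1, 3^k, 1)`.
* `ZClosed` defines the Zariski topology of `G_T`: a point `A` of `G_T` is represented by the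
  matrices of the quotient maps `R_n → A_n ≅ K^{t_n}` (in the bases of monomials of `R_n` and
  arbitrary bases of `A_n`), and a subset of `G_T` is closed if it is defined, on representing
  matrices, by polynomial equations in the entries.
* `FrontierProperty K k`: the closure of every Betti stratum of `G_T` is a union of Betti strata.
-/

open MvPolynomial

noncomputable section

namespace Pool.Agent.H70.Betti

universe u

section koszul

variable {K A : Type u} [Field K] [CommRing A] [Algebra K A]

lemma kd1_add (x v w : Fin 3 → A) :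
    x 0 * (v + w) 0 + x 1 * (v + w) 1 + x 2 * (v + w) 2 =
      (x 0 * v 0 + x 1 * v 1 + x 2 * v 2) + (x 0 * w 0 + x 1 * w 1 + x 2 * w 2) := by
  simp only [Pi.add_apply]; ring

lemma kd1_smul (x : Fin 3 → A) (c : K) (v : Fin 3 → A) :
    x 0 * (c • v) 0 + x 1 * (c • v) 1 + x 2 * (c • v) 2 =
      c • (x 0 * v 0 + x 1 * v 1 + x 2 * v 2) := by
  simp only [Pi.smul_apply, smul_add, mul_smul_comm]

/-- The first Koszul differential `A³ → A`, `(a, b, c) ↦ x a + y b + z c`. -/
def d1 (x : Fin 3 → A) : (Fin 3 → A) →ₗ[K] A where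
  toFun v := x 0 * v 0 + x 1 * v 1 + x 2 * v 2
  map_add' := kd1_add x
  map_smul' := kd1_smul x

/-- The second Koszul differential `A³ → A³`,
`(a, b, c) ↦ (y c - z b, z a - x c, x b - y a)`, as a function. -/
def cross (x v : Fin 3 → A) : Fin 3 → A :=
  ![x 1 * v 2 - x 2 * v 1, x 2 * v 0 - x 0 * v 2, x 0 * v 1 - x 1 * v 0]

lemma cross_add (x v w : Fin 3 → A) : cross x (v + w) = cross x v + cross x w := by
  unfold cross
  funext j; fin_cases j <;> simp <;> ring

lemma cross_smul (x : Fin 3 → A) (c : K) (v : Fin 3 → A) : cross x (c • v) = c • cross x v := by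
  unfold cross
  simp only [Pi.smul_apply, mul_smul_comm, ← smul_sub]
  funext j; fin_cases j <;> rfl

/-- The second Koszul differential `A³ → A³`, `v ↦ cross x v`. -/
def d2 (x : Fin 3 → A) : (Fin 3 → A) →ₗ[K] (Fin 3 → A) where
  toFun v := cross x v
  map_add' := cross_add x
  map_smul' := cross_smul x

/-- The third Koszul differential `A → A³`, `a ↦ (x a, y a, z a)`. -/
def d3 (x : Fin 3 → A) : A →ₗ[K] (Fin 3 → A) :=
  LinearMap.pi fun j => LinearMap.mulLeft K (x j)

/-- Triples of elements of a subspace `N` of `A`. -/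
def tri (N : Submodule K A) : Submodule K (Fin 3 → A) := Submodule.pi Set.univ fun _ => N

/-- The graded piece of index `n - 1`, which is `0` for `n = 0`. -/
def prev (G : ℕ → Submodule K A) : ℕ → Submodule K A
  | 0 => ⊥
  | n + 1 => G n

/-- The dimension of the quotient `Z / (B ∩ Z)` (used for `B ⊆ Z`). -/
def dimQuot {V : Type u} [AddCommGroup V] [Module K V] (Z B : Submodule K V) : ℕ :=
  Module.finrank K (Z ⧸ B.submoduleOf Z)

/-- Cycles of homological degree 1 and internal degree `1 + n`. -/
def Z1 (x : Fin 3 → A) (G : ℕ → Submodule K A) (n : ℕ) : Submodule K (Fin 3 → A) :=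
  LinearMap.ker (d1 x) ⊓ tri (G n)

/-- Cycles of homological degree 2 and internal degree `2 + n`. -/
def Z2 (x : Fin 3 → A) (G : ℕ → Submodule K A) (n : ℕ) : Submodule K (Fin 3 → A) :=
  LinearMap.ker (d2 x) ⊓ tri (G n)

/-- Cycles of homological degree 3 and internal degree `3 + n`. -/
def Z3 (x : Fin 3 → A) (G : ℕ → Submodule K A) (n : ℕ) : Submodule K A :=
  LinearMap.ker (d3 x) ⊓ G n

/-- The dimension of the part of degree `i + n` of the Koszul homology `H_i(x, y, z; A)` of a
graded algebra `A` with graded pieces `G n`. The Koszul complex in degree `i + n` is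
`⋯ → A_{n-1}^{c_{i+1}} → A_n^{c_i} → A_{n+1}^{c_{i-1}} → ⋯` with `c_i = 1, 3, 3, 1`. -/
def koszulDim (x : Fin 3 → A) (G : ℕ → Submodule K A) (i n : ℕ) : ℕ :=
  match i with
  | 0 => dimQuot (G n) ((tri (prev G n)).map (d1 x))
  | 1 => dimQuot (Z1 x G n) ((tri (prev G n)).map (d2 x))
  | 2 => dimQuot (Z2 x G n) ((prev G n).map (d3 x))
  | 3 => Module.finrank K (Z3 x G n)
  | _ => 0

end koszul

variable (K : Type u) [Field K]

/-- The polynomial ring `R = K[x, y, z]`. -/
abbrev R : Type u := MvPolynomial (Fin 3) K

/-- `R_n`, the forms of degree `n`. -/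
abbrev forms (n : ℕ) : Submodule K (R K) := homogeneousSubmodule (Fin 3) K n

variable {K}

/-- The quotient ring `A = R/I`. -/
def Quo (I : Ideal (R K)) : Type u := R K ⧸ I

instance (I : Ideal (R K)) : CommRing (Quo I) := inferInstanceAs (CommRing (R K ⧸ I))

instance (I : Ideal (R K)) : Algebra K (Quo I) := inferInstanceAs (Algebra K (R K ⧸ I))

/-- The quotient map `R → A`. -/
def proj (I : Ideal (R K)) : R K →ₐ[K] Quo I := Ideal.Quotient.mkₐ K I

/-- The graded piece `A_n` of `A = R/I`: the image of `R_n`. -/
def gr (I : Ideal (R K)) (n : ℕ) : Submodule K (Quo I) := (forms K n).map (proj I).toLinearMap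

/-- The classes in `A = R/I` of the variables. -/
def var (I : Ideal (R K)) (j : Fin 3) : Quo I := proj I (X j)

/-- The graded Betti number `β_{i,j}(A) = dim Tor_i(A, K)_j` of `A = R/I`, as the dimension of the
degree `j` part of the Koszul homology `H_i(x, y, z; A)`. -/
def betti (I : Ideal (R K)) (i j : ℕ) : ℕ :=
  if i ≤ j then koszulDim (K := K) (var I) (gr I) i (j - i) else 0

/-- `I` is a homogeneous ideal. -/
def IsHomog (I : Ideal (R K)) : Prop := ∀ f ∈ I, ∀ n, homogeneousComponent n f ∈ I

/-- The Hilbert function of `A = R/I`. -/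
def hilb (I : Ideal (R K)) (n : ℕ) : ℕ := Module.finrank K (gr I n)

/-- The Hilbert function `T = (1, 3^k, 1)`. -/
def T (k n : ℕ) : ℕ := if n = 0 then 1 else if n ≤ k then 3 else if n = k + 1 then 1 else 0

variable (K)

/-- The family `G_T` of graded quotients `A = R/I` of `R` with Hilbert function
`T = (1, 3^k, 1)`. -/
structure GT (k : ℕ) where
  /-- The ideal `I`. -/
  I : Ideal (R K)
  homog : IsHomog I
  hilb_eq : ∀ n, hilb I n = T k n

/-- The index set of the entries of the matrices of linear maps `R_n → K^{t_n}`, `n ≥ 0`: pairs of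
a monomial `m` (of degree `n`) and an index `a < t_n`. -/
abbrev Coord (k : ℕ) : Type := Σ m : Fin 3 →₀ ℕ, Fin (T k m.degree)

variable {K}

/-- For the matrices with entries `c`, the entry with index `a` of the vector in `K^{t_n}` which is
the product of the `n`-th matrix with the coefficient vector of a form `f` of degree `n`. -/
def row {k : ℕ} (c : Coord k → K) (a : ℕ) (f : R K) : K :=
  ∑ m ∈ f.support, if h : a < T k m.degree then coeff m f * c ⟨m, a, h⟩ else 0

/-- The matrices with entries `c` represent the point `A = R/I` of `G_T`: for all `n`, the kernel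
of the linear map `R_n → K^{t_n}` given by the `n`-th matrix is `I_n`; so this map is the
quotient map `R_n → A_n` followed by an isomorphism `A_n ≅ K^{t_n}`. -/
def Represents {k : ℕ} (c : Coord k → K) (A : GT K k) : Prop :=
  ∀ (n : ℕ) (f : R K), f.IsHomogeneous n → (f ∈ A.I ↔ ∀ a < T k n, row c a f = 0)

/-- Zariski closed subsets of `G_T`: those which are defined by polynomial equations in the
entries of the representing matrices. -/
def ZClosed {k : ℕ} (Z : Set (GT K k)) : Prop :=
  ∃ P : Set (MvPolynomial (Coord k) K), ∀ (A : GT K k) (c : Coord k → K), Represents c A →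
    (A ∈ Z ↔ ∀ p ∈ P, eval c p = 0)

/-- The Zariski closure in `G_T`. -/
def zclosure {k : ℕ} (S : Set (GT K k)) : Set (GT K k) := ⋂₀ {Z | ZClosed Z ∧ S ⊆ Z}

/-- The Betti stratum of the Betti table `β`. -/
def stratum {k : ℕ} (β : ℕ → ℕ → ℕ) : Set (GT K k) := {A | ∀ i j, betti A.I i j = β i j}

variable (K)

/-- The frontier property: the closure in `G_T` of every Betti stratum is a union of Betti
strata. -/
def FrontierProperty (k : ℕ) : Prop :=
  ∀ β : ℕ → ℕ → ℕ, ∃ B : Set (ℕ → ℕ → ℕ),
    zclosure (stratum β : Set (GT K k)) = ⋃ γ ∈ B, stratum γ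

end Pool.Agent.H70.Betti
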