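import Pool.Agent.H70.Betti.Alg

set_option autoImplicit false

/-!
# The Betti table of `A(0, e)` does not depend on `e`
-/

open MvPolynomial Module

noncomputable section

namespace Pool.Agent.H70.Betti

universe u

variable {K : Type u} [Field K]

lemma X_mul_mem {n : ℕ} (j : Fin 3) {f : R K} (hf : f ∈ forms K n) :
    X j * f ∈ forms K (n + 1) := by
  have := (isHomogeneous_X K j).mul hf
  rwa [add_comm] at this

/-- The first Koszul map on triples of forms. -/
def D1 {n : ℕ} (v : Fin 3 → forms K n) : R K :=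
  X 0 * (v 0 : R K) + X 1 * (v 1 : R K) + X 2 * (v 2 : R K)

/-- The second Koszul map on triples of forms. -/
def D2 {n : ℕ} (v : Fin 3 → forms K n) (j : Fin 3) : R K :=
  (![X 1 * (v 2 : R K) - X 2 * (v 1 : R K), X 2 * (v 0 : R K) - X 0 * (v 2 : R K),
    X 0 * (v 1 : R K) - X 1 * (v 0 : R K)] : Fin 3 → R K) j

lemma D1_mem {n : ℕ} (v : Fin 3 → forms K n) : D1 v ∈ forms K (n + 1) :=
  add_mem (add_mem (X_mul_mem 0 (v 0).2) (X_mul_mem 1 (v 1).2)) (X_mul_mem 2 (v 2).2)

lemma D2_mem {n : ℕ} (v : Fin 3 → forms K n) (j : Fin 3) : D2 v j ∈ forms K (n + 1) := by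
  fin_cases j
  · exact sub_mem (X_mul_mem 1 (v 2).2) (X_mul_mem 2 (v 1).2)
  · exact sub_mem (X_mul_mem 2 (v 0).2) (X_mul_mem 0 (v 2).2)
  · exact sub_mem (X_mul_mem 0 (v 1).2) (X_mul_mem 1 (v 0).2)

lemma L1_eq_zero (I : Ideal (R K)) {n : ℕ} (v : Fin 3 → forms K n) :
    L1 I n v = 0 ↔ D1 v ∈ I := by
  rw [L1_apply]; exact (proj_eq_zero _)

lemma L2_eq_zero (I : Ideal (R K)) {n : ℕ} (v : Fin 3 → forms K n) :
    L2 I n v = 0 ↔ ∀ j, D2 v j ∈ I := by
  have : L2 I n v = fun j => proj I (D2 v j) := by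
    rw [L2_apply]
    funext j
    fin_cases j <;> rfl
  rw [this]
  constructor
  · intro h j
    exact (proj_eq_zero _).1 (congrFun h j)
  · intro h
    funext j
    exact (proj_eq_zero _).2 (h j)

lemma L3_eq_zero (I : Ideal (R K)) {n : ℕ} (f : forms K n) :
    L3 I n f = 0 ↔ ∀ j, X j * (f : R K) ∈ I := by
  rw [L3_apply]
  constructor
  · intro h j
    exact (proj_eq_zero _).1 (congrFun h j)
  · intro h
    funext j
    exact (proj_eq_zero _).2 (h j)

lemma same_rank {I J : Ideal (R K)} {n : ℕ} (h : ∀ f ∈ forms K (n + 1), f ∈ I ↔ f ∈ J) :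
    finrank K ((tri (gr I n)).map (kos1 I)) = finrank K ((tri (gr J n)).map (kos1 J)) ∧
    finrank K ((tri (gr I n)).map (kos2 I)) = finrank K ((tri (gr J n)).map (kos2 J)) ∧
    finrank K ((gr I n).map (kos3 I)) = finrank K ((gr J n).map (kos3 J)) := by
  refine ⟨?_, ?_, ?_⟩
  · rw [← range_L1, ← range_L1]
    refine finrank_range_eq_of_ker_eq _ _ fun v => ?_
    rw [L1_eq_zero, L1_eq_zero]
    exact h _ (D1_mem v)
  · rw [← range_L2, ← range_L2]
    refine finrank_range_eq_of_ker_eq _ _ fun v => ?_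
    rw [L2_eq_zero, L2_eq_zero]
    exact forall_congr' fun j => h _ (D2_mem v j)
  · rw [← range_L3, ← range_L3]
    refine finrank_range_eq_of_ker_eq _ _ fun v => ?_
    rw [L3_eq_zero, L3_eq_zero]
    exact forall_congr' fun j => h _ (X_mul_mem j v.2)

/-- The functional defining `I_{k+1}`. -/
def phi (e : K) : R K →ₗ[K] K :=
  (aeval (pt (0 : K) 0)).toLinearMap + (aeval (pt (0 : K) 1)).toLinearMap +
    e • (aeval (pt (0 : K) 2)).toLinearMap

lemma phi_apply (e : K) (f : R K) : phi e f =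
    eval (pt (0 : K) 0) f + eval (pt (0 : K) 1) f + e * eval (pt (0 : K) 2) f := rfl

lemma mem_alg_top {e : K} {k : ℕ} {hk : 2 ≤ k} {f : R K} (hf : f ∈ forms K (k + 1)) :
    f ∈ alg 0 e hk ↔ phi e f = 0 := by
  rw [mem_alg hf, T_top]
  constructor
  · intro h
    have := h 0 (by norm_num)
    rwa [Lam_top _ _ _ (by omega)] at this
  · intro h a ha
    rw [Lam_top _ _ _ (by omega)]
    exact h

lemma phi_X0 (e : K) (f : R K) : phi e (X 0 * f) = 0 := by
  rw [phi_apply, pt_zero, pt_one, pt_two]; simp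

lemma phi_X1 (e : K) (f : R K) :
    phi e (X 1 * f) = eval (pt (0 : K) 0) f + e * eval (pt (0 : K) 2) f := by
  rw [phi_apply, pt_zero, pt_one, pt_two]; simp

lemma phi_X2 (e : K) (f : R K) :
    phi e (X 2 * f) = eval (pt (0 : K) 1) f + e * eval (pt (0 : K) 2) f := by
  rw [phi_apply, pt_zero, pt_one, pt_two]; simp

/-- `phi ∘ D1` -/
def M1 (e : K) (n : ℕ) : (Fin 3 → forms K n) →ₗ[K] K where
  toFun v := phi e (D1 v)
  map_add' v w := by rw [← map_add]; congr 1; simp only [D1, Pi.add_apply, Submodule.coe_add]; ring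
  map_smul' c v := by
    rw [← map_smul]; congr 1
    simp only [D1, Pi.smul_apply, Submodule.coe_smul, RingHom.id_apply, smul_eq_C_mul]; ring

/-- `phi ∘ D2` -/
def M2 (e : K) (n : ℕ) : (Fin 3 → forms K n) →ₗ[K] (Fin 3 → K) where
  toFun v := fun j => phi e (D2 v j)
  map_add' v w := by
    funext j
    rw [Pi.add_apply, ← map_add]; congr 1
    fin_cases j <;> simp [D2] <;> ring
  map_smul' c v := by
    funext j
    rw [Pi.smul_apply, ← map_smul]; congr 1
    fin_cases j <;> simp [D2, smul_eq_C_mul] <;> ring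

/-- `phi ∘ D3` -/
def M3 (e : K) (n : ℕ) : (forms K n) →ₗ[K] (Fin 3 → K) where
  toFun f := fun j => phi e (X j * (f : R K))
  map_add' v w := by
    funext j
    rw [Pi.add_apply, ← map_add]; congr 1
    rw [Submodule.coe_add, mul_add]
  map_smul' c v := by
    funext j
    rw [Pi.smul_apply, ← map_smul]; congr 1
    rw [Submodule.coe_smul, mul_smul_comm]; rfl

lemma range_M1 (e : K) {k : ℕ} (hk : 2 ≤ k) : LinearMap.range (M1 e k) = ⊤ := by
  rw [LinearMap.range_eq_top]
  intro w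
  obtain ⟨f, hf, h⟩ := exists_interp (0 : K) hk fun a => if a = 0 then w else 0
  refine ⟨![0, ⟨f, hf⟩, 0], ?_⟩
  change phi e (D1 _) = w
  simp only [D1, Matrix.cons_val_zero, Matrix.cons_val_one, Matrix.cons_val, Submodule.coe_zero,
    mul_zero, zero_add, add_zero]
  rw [phi_X1, h 0 (by norm_num), h 2 (by norm_num)]
  simp

lemma range_M2 (e : K) {k : ℕ} (hk : 2 ≤ k) : LinearMap.range (M2 e k) = ⊤ := by
  rw [LinearMap.range_eq_top]
  intro w
  obtain ⟨f, hf, h⟩ := exists_interp (0 : K) hk fun a => if a = 0 then w 0 else 0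
  obtain ⟨g, hg, h'⟩ := exists_interp (0 : K) hk
    fun a => if a = 0 then - w 2 else if a = 1 then w 1 else 0
  refine ⟨![⟨g, hg⟩, 0, ⟨f, hf⟩], ?_⟩
  funext j
  change phi e (D2 _ j) = w j
  fin_cases j
  · simp only [D2, Matrix.cons_val_zero, Matrix.cons_val_one, Matrix.cons_val, Submodule.coe_zero,
      mul_zero, sub_zero, Fin.zero_eta]
    rw [phi_X1, h 0 (by norm_num), h 2 (by norm_num)]
    simp
  · simp only [D2, Matrix.cons_val_zero, Matrix.cons_val_one, Matrix.cons_val, Submodule.coe_zero,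
      mul_zero, sub_zero, Fin.mk_one]
    rw [map_sub, phi_X2, phi_X0, h' 1 (by norm_num), h' 2 (by norm_num)]
    simp
  · simp only [D2, Matrix.cons_val_zero, Matrix.cons_val_one, Matrix.cons_val, Submodule.coe_zero,
      mul_zero, zero_sub, Fin.reduceFinMk]
    rw [map_neg, phi_X1, h' 0 (by norm_num), h' 2 (by norm_num)]
    simp

lemma range_M3 (e e' : K) {k : ℕ} (hk : 2 ≤ k) :
    LinearMap.range (M3 e k) ≤ LinearMap.range (M3 e' k) := by
  rintro _ ⟨f, rfl⟩
  obtain ⟨g, hg, h⟩ := exists_interp (0 : K) hk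
    fun a => if a = 0 then phi e (X 1 * (f : R K)) else if a = 1 then phi e (X 2 * (f : R K))
      else 0
  refine ⟨⟨g, hg⟩, ?_⟩
  funext j
  change phi e' (X j * g) = phi e (X j * (f : R K))
  fin_cases j
  · change phi e' (X 0 * g) = phi e (X 0 * (f : R K))
    rw [phi_X0, phi_X0]
  · change phi e' (X 1 * g) = phi e (X 1 * (f : R K))
    rw [phi_X1, h 0 (by norm_num), h 2 (by norm_num)]
    simp
  · change phi e' (X 2 * g) = phi e (X 2 * (f : R K))
    rw [phi_X2, h 1 (by norm_num), h 2 (by norm_num)]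
    simp

lemma rank_top (e e' : K) {k : ℕ} (hk : 2 ≤ k) :
    finrank K ((tri (gr (alg 0 e hk) k)).map (kos1 (alg 0 e hk))) =
      finrank K ((tri (gr (alg 0 e' hk) k)).map (kos1 (alg 0 e' hk))) ∧
    finrank K ((tri (gr (alg 0 e hk) k)).map (kos2 (alg 0 e hk))) =
      finrank K ((tri (gr (alg 0 e' hk) k)).map (kos2 (alg 0 e' hk))) ∧
    finrank K ((gr (alg 0 e hk) k).map (kos3 (alg 0 e hk))) =
      finrank K ((gr (alg 0 e' hk) k).map (kos3 (alg 0 e' hk))) := by
  have a1 : ∀ e : K, finrank K (LinearMap.range (L1 (alg 0 e hk) k)) =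
      finrank K (LinearMap.range (M1 e k)) := fun e =>
    finrank_range_eq_of_ker_eq _ _ fun v => by
      rw [L1_eq_zero, mem_alg_top (D1_mem v)]; rfl
  have a2 : ∀ e : K, finrank K (LinearMap.range (L2 (alg 0 e hk) k)) =
      finrank K (LinearMap.range (M2 e k)) := fun e =>
    finrank_range_eq_of_ker_eq _ _ fun v => by
      rw [L2_eq_zero]
      constructor
      · intro h; funext j; exact (mem_alg_top (D2_mem v j)).1 (h j)
      · intro h j; exact (mem_alg_top (D2_mem v j)).2 (congrFun h j)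
  have a3 : ∀ e : K, finrank K (LinearMap.range (L3 (alg 0 e hk) k)) =
      finrank K (LinearMap.range (M3 e k)) := fun e =>
    finrank_range_eq_of_ker_eq _ _ fun v => by
      rw [L3_eq_zero]
      constructor
      · intro h; funext j; exact (mem_alg_top (X_mul_mem j v.2)).1 (h j)
      · intro h j; exact (mem_alg_top (X_mul_mem j v.2)).2 (congrFun h j)
  refine ⟨?_, ?_, ?_⟩
  · rw [← range_L1, ← range_L1, a1, a1, range_M1 e hk, range_M1 e' hk]
  · rw [← range_L2, ← range_L2, a2, a2, range_M2 e hk, range_M2 e' hk]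
  · rw [← range_L3, ← range_L3, a3, a3, le_antisymm (range_M3 e e' hk) (range_M3 e' e hk)]

lemma mem_alg_indep (e e' : K) {k : ℕ} (hk : 2 ≤ k) {n : ℕ} (hn : n ≠ k + 1) {f : R K}
    (hf : f ∈ forms K n) : f ∈ alg 0 e hk ↔ f ∈ alg 0 e' hk := by
  rw [mem_alg hf, mem_alg hf]
  have : ∀ a, Lam 0 e k n a f = Lam 0 e' k n a f := by
    intro a
    simp only [Lam, hn, if_false]
  simp only [this]

theorem betti_eq (e e' : K) {k : ℕ} (hk : 2 ≤ k) (i j : ℕ) :
    betti (alg 0 e hk) i j = betti (alg 0 e' hk) i j := by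
  have hr : ∀ n, finrank K ((tri (gr (alg 0 e hk) n)).map (kos1 (alg 0 e hk))) =
      finrank K ((tri (gr (alg 0 e' hk) n)).map (kos1 (alg 0 e' hk))) ∧
    finrank K ((tri (gr (alg 0 e hk) n)).map (kos2 (alg 0 e hk))) =
      finrank K ((tri (gr (alg 0 e' hk) n)).map (kos2 (alg 0 e' hk))) ∧
    finrank K ((gr (alg 0 e hk) n).map (kos3 (alg 0 e hk))) =
      finrank K ((gr (alg 0 e' hk) n).map (kos3 (alg 0 e' hk))) := by
    intro n
    by_cases hn : n = k
    · subst hn; exact rank_top e e' hk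
    · exact same_rank fun f hf => mem_alg_indep e e' hk (by omega) hf
  unfold betti
  split_ifs
  · refine koszulDim_congr (fun n => ?_) (fun n => (hr n).1) (fun n => (hr n).2.1)
      (fun n => (hr n).2.2) _ _
    exact ((point 0 e hk).hilb_eq n).trans ((point 0 e' hk).hilb_eq n).symm
  · rfl

end Pool.Agent.H70.Betti
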