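import Pool.Agent.H70.Betti.Closed

set_option autoImplicit false

/-!
# The degeneration and the failure of the frontier property
-/

open MvPolynomial Module

noncomputable section

namespace Pool.Agent.H70.Betti

universe u

variable {K : Type u} [Field K]

lemma gr_mul {I : Ideal (R K)} {m n : ℕ} {a b : Quo I} (ha : a ∈ gr I m) (hb : b ∈ gr I n) :
    a * b ∈ gr I (m + n) := by
  obtain ⟨f, hf, rfl⟩ := mem_gr.1 ha
  obtain ⟨g, hg, rfl⟩ := mem_gr.1 hb
  exact mem_gr.2 ⟨f * g, IsHomogeneous.mul hf hg, map_mul _ _ _⟩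

lemma linear_mul_eq_zero {I : Ideal (R K)} {a : Quo I} (h : ∀ j, var I j * a = 0) {b : Quo I}
    (hb : b ∈ gr I 1) : b * a = 0 := by
  obtain ⟨f, hf, rfl⟩ := mem_gr.1 hb
  have hf' : f ∈ Submodule.span K (Set.range (X : Fin 3 → R K)) := by
    rwa [← homogeneousSubmodule_one_eq_span_X]
  clear hb hf
  induction hf' using Submodule.span_induction with
  | mem x hx => obtain ⟨j, rfl⟩ := hx; exact h j
  | zero => rw [map_zero, zero_mul]
  | add x y _ _ hx hy => rw [map_add, add_mul, hx, hy, add_zero]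
  | smul c x _ hx =>
    rw [map_smul, smul_mul_assoc, hx, smul_zero]

/-- Multiplication `A_1 × A_k → A_{k+1}`, `α ↦ (γ ↦ α γ)`. -/
def mulMap {I : Ideal (R K)} (k : ℕ) (α : gr I 1) : gr I k →ₗ[K] gr I (k + 1) where
  toFun γ := ⟨α.1 * γ.1, by have := gr_mul α.2 γ.2; rwa [add_comm] at this⟩
  map_add' x y := Subtype.ext (by simp [mul_add])
  map_smul' c x := Subtype.ext (mul_smul_comm c _ _)

/-- If `A_k` contains a socle element but `A_1` does not, then the point is degenerate. -/
lemma mem_degen_of_socle {k : ℕ} (hk : 2 ≤ k) (A : GT K k) (h1 : kD A.I 3 1 = 0)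
    (hk0 : kD A.I 3 k ≠ 0) : A ∈ (degen (by omega : 1 ≤ k) : Set (GT K k)) := by
  have hbot : LinearMap.ker (kos3 A.I) ⊓ gr A.I 1 = ⊥ := Submodule.finrank_eq_zero.1 h1
  have hne : LinearMap.ker (kos3 A.I) ⊓ gr A.I k ≠ ⊥ := fun h => hk0 (by
    change finrank K ↥(LinearMap.ker (kos3 A.I) ⊓ gr A.I k) = 0
    rw [h, finrank_bot])
  obtain ⟨a, ⟨ha1, ha2⟩, ha0⟩ := Submodule.exists_mem_ne_zero_of_ne_bot hne
  have hvar : ∀ j, var A.I j * a = 0 := fun j => congrFun (LinearMap.mem_ker.1 ha1) j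
  let a' : gr A.I k := ⟨a, ha2⟩
  have ha0' : a' ≠ 0 := fun h => ha0 (congrArg Subtype.val h)
  let N := Submodule.span K {a'}
  have hN : ∀ α : gr A.I 1, N ≤ LinearMap.ker (mulMap k α) := by
    intro α
    rw [Submodule.span_singleton_le_iff_mem, LinearMap.mem_ker]
    exact Subtype.ext (linear_mul_eq_zero hvar α.2)
  let Θ : gr A.I 1 →ₗ[K] ((gr A.I k ⧸ N) →ₗ[K] gr A.I (k + 1)) :=
    { toFun := fun α => N.liftQ (mulMap k α) (hN α)
      map_add' := by
        intro α β
        refine LinearMap.ext fun x => ?_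
        obtain ⟨y, rfl⟩ := N.mkQ_surjective x
        rw [LinearMap.add_apply, Submodule.mkQ_apply, Submodule.liftQ_apply,
          Submodule.liftQ_apply, Submodule.liftQ_apply]
        exact Subtype.ext (add_mul _ _ _)
      map_smul' := by
        intro c α
        refine LinearMap.ext fun x => ?_
        obtain ⟨y, rfl⟩ := N.mkQ_surjective x
        rw [LinearMap.smul_apply, Submodule.mkQ_apply, Submodule.liftQ_apply,
          Submodule.liftQ_apply]
        exact Subtype.ext (smul_mul_assoc _ _ _) }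
  have hdim : finrank K ((gr A.I k ⧸ N) →ₗ[K] gr A.I (k + 1)) < finrank K (gr A.I 1) := by
    have r1 : finrank K (gr A.I 1) = T k 1 := A.hilb_eq 1
    have r2 : finrank K (gr A.I k) = T k k := A.hilb_eq k
    have r3 : finrank K (gr A.I (k + 1)) = T k (k + 1) := A.hilb_eq (k + 1)
    rw [Module.finrank_linearMap, r3, r1, T_top,
      T_mid (by norm_num : (1:ℕ) ≠ 0) (by omega : 1 ≤ k)]
    have h2 := Submodule.finrank_quotient_add_finrank N
    rw [r2, T_mid (by omega : k ≠ 0) le_rfl, finrank_span_singleton ha0'] at h2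
    omega
  have hker : LinearMap.ker Θ ≠ ⊥ := by
    intro h
    have hinj : Function.Injective Θ := by
      intro x y hxy
      have h1 : x - y ∈ LinearMap.ker Θ := by
        change Θ (x - y) = 0
        rw [map_sub, hxy, sub_self]
      rw [h, Submodule.mem_bot] at h1
      exact sub_eq_zero.1 h1
    have := LinearMap.finrank_le_finrank_of_injective hinj
    omega
  obtain ⟨α, hα, hα0⟩ := Submodule.exists_mem_ne_zero_of_ne_bot hker
  have hkill : ∀ γ ∈ gr A.I k, α.1 * γ = 0 := by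
    intro γ hγ
    have h3 := LinearMap.congr_fun (LinearMap.mem_ker.1 hα) (N.mkQ ⟨γ, hγ⟩)
    rw [LinearMap.zero_apply] at h3
    exact congrArg Subtype.val h3
  have hj : ∃ j, var A.I j * α.1 ≠ 0 := by
    by_contra hcon
    push Not at hcon
    have : α.1 ∈ (⊥ : Submodule K (Quo A.I)) := by
      rw [← hbot]
      exact ⟨LinearMap.mem_ker.2 (funext hcon), α.2⟩
    exact hα0 (Subtype.ext this)
  obtain ⟨j, hj⟩ := hj
  obtain ⟨f, hf, hfα⟩ := mem_gr.1 α.2
  refine mem_degen hk A (q := X j * f) (X_mul_mem j hf) ?_ ?_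
  · intro hmem
    apply hj
    rw [← hfα]
    exact (proj_eq_zero _).2 hmem
  · intro w hw
    rw [← proj_eq_zero]
    have h4 : proj A.I (X j * f * w) =
        α.1 * (var A.I j * proj A.I w) := by
      rw [← hfα, map_mul, map_mul]
      unfold var
      ring
    rw [h4]
    have h5 := var_mul_mem j (mk_mem_gr (I := A.I) hw)
    rw [show k - 1 + 1 = k by omega] at h5
    exact hkill _ h5

lemma linear_eq {f : R K} (hf : f ∈ forms K 1) :
    f = coeff (Finsupp.single 0 1) f • X 0 + coeff (Finsupp.single 1 1) f • X 1 +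
      coeff (Finsupp.single 2 1) f • X 2 := by
  rw [← sub_eq_zero]
  refine eq_zero_of_deg_one (sub_mem hf ?_) ?_
  · exact add_mem (add_mem (Submodule.smul_mem _ _ (isHomogeneous_X K 0))
      (Submodule.smul_mem _ _ (isHomogeneous_X K 1)))
      (Submodule.smul_mem _ _ (isHomogeneous_X K 2))
  · intro a ha
    interval_cases a <;> simp [coeff_X, Finsupp.single_left_inj, Fin.ofNat]

/-- No socle in degree one for `t ≠ 0`. -/
lemma koszul_one {t : K} (ht : t ≠ 0) {k : ℕ} (hk : 2 ≤ k) :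
    kD (alg t 0 hk) 3 1 = 0 := by
  change finrank K ↥(LinearMap.ker (kos3 (alg t 0 hk)) ⊓ gr (alg t 0 hk) 1) = 0
  rw [Submodule.finrank_eq_zero, Submodule.eq_bot_iff]
  rintro a ⟨ha1, ha2⟩
  obtain ⟨f, hf, rfl⟩ := mem_gr.1 ha2
  have hvar : ∀ j, X j * f ∈ alg t 0 hk := fun j => by
    rw [← proj_eq_zero, map_mul]
    exact congrFun (LinearMap.mem_ker.1 ha1) j
  have hev : ∀ j, ∀ a < 3, pt t a j * eval (pt t a) f = 0 := by
    intro j a ha
    have h1 := (mem_alg (n := 2) (X_mul_mem j hf)).1 (hvar j) a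
      (by rw [T_mid (by norm_num) hk]; exact ha)
    rw [Lam_mid t 0 a le_rfl hk, map_mul, eval_X] at h1
    exact h1
  have e0 : eval (pt t 0) f = 0 := by
    have := hev 1 0 (by norm_num); rw [pt_zero] at this ⊢; simpa using this
  have e1 : eval (pt t 1) f = 0 := by
    have := hev 2 1 (by norm_num); rw [pt_one] at this ⊢; simpa using this
  have e2 : eval (pt t 2) f = 0 := by
    have := hev 1 2 (by norm_num); rw [pt_two] at this ⊢; simpa using this
  rw [linear_eq hf, pt_zero] at e0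
  rw [linear_eq hf, pt_one] at e1
  rw [linear_eq hf, pt_two] at e2
  simp [smul_eval] at e0 e1 e2
  rw [e0, e1] at e2
  have e3 : coeff (Finsupp.single 0 1) f = 0 := by
    simpa [ht] using e2
  have : f = 0 := by
    rw [linear_eq hf, e0, e1, e3]; simp
  rw [this, map_zero]

/-- Socle in degree `k` for `e = 0`. -/
lemma koszul_k (t : K) {k : ℕ} (hk : 2 ≤ k) : kD (alg t 0 hk) 3 k ≠ 0 := by
  change finrank K ↥(LinearMap.ker (kos3 (alg t 0 hk)) ⊓ gr (alg t 0 hk) k) ≠ 0
  rw [Ne, Submodule.finrank_eq_zero, Submodule.eq_bot_iff]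
  intro h
  have hm : (X 1 * X 2 ^ (k - 1) : R K) ∈ forms K k := X12_mem (by omega)
  have hk1 : k - 1 ≠ 0 := by omega
  have h0 := h (proj (alg t 0 hk) (X 1 * X 2 ^ (k - 1))) ⟨?_, mk_mem_gr hm⟩
  · rw [proj_eq_zero, mem_alg hm] at h0
    have h1 := h0 2 (by rw [T_mid (by omega) le_rfl]; norm_num)
    rw [Lam_mid t 0 2 hk le_rfl, pt_two] at h1
    simp at h1
  · refine LinearMap.mem_ker.2 ?_
    funext j
    change proj (alg t 0 hk) (X j * (X 1 * X 2 ^ (k - 1))) = 0
    rw [proj_eq_zero, mem_alg (X_mul_mem j hm)]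
    intro a ha
    rw [Lam_top t 0 a (by omega), pt_zero, pt_one]
    simp [hk1]

/-- The coordinates of `A(t, 0)` are polynomials in `t`. -/
lemma exists_coordPoly {k : ℕ} (hk : 2 ≤ k) (c : Coord k) :
    ∃ Q : Polynomial K, ∀ t : K, Q.eval t = coords t 0 k c := by
  obtain ⟨m, a⟩ := c
  have hmon : ∀ a : ℕ, ∃ Q : Polynomial K, ∀ t : K, Q.eval t =
      eval (pt t a) (monomial m (1 : K)) := by
    intro a
    let P : Fin 3 → Polynomial K :=
      if a = 0 then ![0, 1, 0] else if a = 1 then ![0, 0, 1] else ![Polynomial.X, 1, 1]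
    refine ⟨∏ j, P j ^ (m j), fun t => ?_⟩
    have hP : ∀ j, (P j).eval t = pt t a j := by
      intro j
      simp only [P, pt]
      split_ifs <;> fin_cases j <;> simp
    rw [eval_monomial, Finsupp.prod_fintype _ _ (by simp), one_mul, Polynomial.eval_prod]
    exact Finset.prod_congr rfl fun j _ => by rw [Polynomial.eval_pow, hP]
  have hval : ∀ t : K, coords t 0 k ⟨m, a⟩ = Lam t 0 k m.degree a.1 (monomial m 1) :=
    fun t => rfl
  simp only [hval]
  clear hval
  generalize m.degree = n at a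
  rcases Nat.lt_or_ge n 2 with hn | hn
  · interval_cases n
    · exact ⟨Polynomial.C (coeff 0 (monomial m (1 : K))), fun t => by
        rw [Lam_zero, Polynomial.eval_C]⟩
    · exact ⟨Polynomial.C (coeff (Finsupp.single (Fin.ofNat 3 a) 1) (monomial m (1 : K))),
        fun t => by rw [Lam_one, Polynomial.eval_C]⟩
  · rcases Nat.lt_or_ge k n with hkn | hkn
    · rcases Nat.lt_or_ge (k + 1) n with hkn' | hkn'
      · have : (a : ℕ) < 0 := lt_of_lt_of_eq a.2 (T_big (by omega))
        omega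
      · have : n = k + 1 := by omega
        subst this
        obtain ⟨Q0, h0⟩ := hmon 0
        obtain ⟨Q1, h1⟩ := hmon 1
        refine ⟨Q0 + Q1, fun t => ?_⟩
        rw [Lam_top _ _ _ (by omega), Polynomial.eval_add, h0, h1, zero_mul, add_zero]
    · obtain ⟨Q, h⟩ := hmon a.1
      refine ⟨Q, fun t => ?_⟩
      rw [h, Lam_mid t 0 a.1 hn hkn]

/-- The degeneration `A(t, 0) → A(0, 0)`. -/
lemma limit_mem {k : ℕ} (hk : 2 ≤ k) {S : Set (GT K k)}
    (hS : {t : K | point t 0 hk ∈ S}.Infinite) : point 0 0 hk ∈ zclosure S := by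
  rintro Z ⟨⟨P, hP⟩, hSZ⟩
  choose Q hQ using fun c => exists_coordPoly (K := K) hk c
  have hent : ∀ t : K, coords t 0 k = fun c => (Q c).eval t := fun t =>
    funext fun c => (hQ c t).symm
  have hcomp : ∀ (t : K) (p : MvPolynomial (Coord k) K),
      (aeval Q p : Polynomial K).eval t = eval (coords t 0 k) p := by
    intro t p
    rw [hent t]
    induction p using MvPolynomial.induction_on with
    | C a => simp
    | add p q hp hq => rw [map_add, map_add, Polynomial.eval_add, hp, hq]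
    | mul_X p c hp => rw [map_mul, map_mul, Polynomial.eval_mul, hp, aeval_X, eval_X]
  rw [hP _ _ (represents_point 0 0 hk)]
  intro p hp
  rw [← hcomp]
  have hz : (aeval Q p : Polynomial K) = 0 := by
    refine Polynomial.eq_zero_of_infinite_isRoot _ (hS.mono fun t ht => ?_)
    change (aeval Q p : Polynomial K).eval t = 0
    rw [hcomp]
    exact (hP _ _ (represents_point t 0 hk)).1 (hSZ ht) p hp
  rw [hz, Polynomial.eval_zero]

lemma T_le (k n : ℕ) : T k n ≤ 3 := by
  unfold T; split_ifs <;> norm_num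

lemma betti_lt {k : ℕ} (A : GT K k) (i j : ℕ) : betti A.I i j < 10 := by
  unfold betti
  split_ifs
  · have h1 := koszulDim_le A.I i (j - i)
    have hr : finrank K (gr A.I (j - i)) = T k (j - i) := A.hilb_eq _
    rw [hr] at h1
    change kD A.I i (j - i) < 10
    have := T_le k (j - i)
    omega
  · norm_num

lemma betti_zero_i {k : ℕ} (A : GT K k) {i : ℕ} (hi : 4 ≤ i) (j : ℕ) : betti A.I i j = 0 := by
  obtain ⟨i, rfl⟩ := Nat.exists_eq_add_of_le' hi
  unfold betti
  split_ifs <;> rfl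

lemma betti_zero_j {k : ℕ} (A : GT K k) {i j : ℕ} (hj : k + 5 ≤ j) : betti A.I i j = 0 := by
  by_cases hi : 4 ≤ i
  · exact betti_zero_i A hi j
  · unfold betti
    split_ifs
    · have h1 := koszulDim_le A.I i (j - i)
      have hr : finrank K (gr A.I (j - i)) = T k (j - i) := A.hilb_eq _
      rw [hr, T_big (by omega)] at h1
      change kD A.I i (j - i) = 0
      omega
    · rfl

/-- Infinitely many of the `A(t, 0)`, `t ≠ 0`, have the same Betti table. -/
lemma exists_table [Infinite K] {k : ℕ} (hk : 2 ≤ k) : ∃ t₀ : K, t₀ ≠ 0 ∧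
    {t : K | point t 0 hk ∈ (stratum (betti (point t₀ 0 hk).I) : Set (GT K k))}.Infinite := by
  have : Infinite {t : K // t ≠ 0} := by
    have h : ({0}ᶜ : Set K).Infinite := (Set.finite_singleton 0).infinite_compl
    exact h.to_subtype
  let F : {t : K // t ≠ 0} → (Fin 4 → Fin (k + 5) → Fin 10) := fun t i j =>
    ⟨betti (point t.1 0 hk).I i j, betti_lt _ _ _⟩
  obtain ⟨y, hy⟩ := Finite.exists_infinite_fiber F
  obtain ⟨t₀, ht₀⟩ := hy.nonempty
  refine ⟨t₀.1, t₀.2, ?_⟩
  have hinf : (F ⁻¹' {y}).Infinite := Set.infinite_coe_iff.1 hy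
  refine (hinf.image (Subtype.val_injective.injOn)).mono ?_
  rintro _ ⟨t, ht, rfl⟩
  intro i j
  have hF : F t = F t₀ := ht.trans ht₀.symm
  by_cases hi : 4 ≤ i
  · rw [betti_zero_i _ hi, betti_zero_i _ hi]
  · by_cases hj : k + 5 ≤ j
    · rw [betti_zero_j _ hj, betti_zero_j _ hj]
    · have := congrFun (congrFun hF ⟨i, by omega⟩) ⟨j, by omega⟩
      exact congrArg Fin.val this

theorem not_frontier [Infinite K] {k : ℕ} (hk : 3 ≤ k) : ¬ FrontierProperty K k := by
  intro h
  have hk2 : 2 ≤ k := by omega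
  obtain ⟨t₀, ht₀, hinf⟩ := exists_table (K := K) hk2
  obtain ⟨B, hB⟩ := h (betti (point t₀ 0 hk2).I)
  have h0 := limit_mem hk2 hinf
  rw [hB] at h0
  simp only [Set.mem_iUnion] at h0
  obtain ⟨γ, hγ, h0⟩ := h0
  have h1 : point 0 1 hk2 ∈ (stratum γ : Set (GT K k)) := by
    intro i j
    rw [← h0 i j]
    exact betti_eq 1 0 hk2 i j
  have h2 : point 0 1 hk2 ∈ zclosure (stratum (betti (point t₀ 0 hk2).I) : Set (GT K k)) := by
    rw [hB]
    exact Set.mem_biUnion hγ h1
  refine not_mem_degen hk (h2 _ ⟨zclosed_degen _, fun A hA => ?_⟩)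
  refine mem_degen_of_socle hk2 A ?_ ?_
  · have h3 := hA 3 4
    simp only [betti, show 3 ≤ 4 by norm_num, if_true] at h3
    exact h3.trans (koszul_one ht₀ hk2)
  · have h3 := hA 3 (k + 3)
    simp only [betti, show 3 ≤ k + 3 by omega, if_true, Nat.add_sub_cancel] at h3
    exact ne_of_eq_of_ne h3 (koszul_k t₀ hk2)

end Pool.Agent.H70.Betti
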