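import Pool.Agent.H70.Betti.Defs

set_option autoImplicit false

open MvPolynomial Module

noncomputable section

namespace Pool.Agent.H70.Betti

universe u

section general

variable {K : Type u} [Field K] {V W W' : Type u} [AddCommGroup V] [Module K V]
  [AddCommGroup W] [Module K W] [AddCommGroup W'] [Module K W']

/-- Rank-nullity for the restriction of a linear map to a subspace. -/
lemma finrank_ker_inf_add_map (d : V →ₗ[K] W) (C : Submodule K V) [FiniteDimensional K C] :
    finrank K ↥(LinearMap.ker d ⊓ C) + finrank K (C.map d) = finrank K C := by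
  have h := LinearMap.finrank_range_add_finrank_ker (d.domRestrict C)
  rw [LinearMap.range_domRestrict, LinearMap.ker_domRestrict] at h
  have h2 : finrank K ((LinearMap.ker d).submoduleOf C) = finrank K ↥(LinearMap.ker d ⊓ C) := by
    have e : (LinearMap.ker d).submoduleOf C ≃ₗ[K] ↥(LinearMap.ker d ⊓ C) :=
      { toFun := fun x => ⟨x.1.1, x.2, x.1.2⟩
        invFun := fun x => ⟨⟨x.1, x.2.2⟩, x.2.1⟩
        left_inv := fun _ => rfl
        right_inv := fun _ => rfl
        map_add' := fun _ _ => rfl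
        map_smul' := fun _ _ => rfl }
    exact e.finrank_eq
  unfold Submodule.submoduleOf at h2
  omega

lemma dimQuot_add (Z B : Submodule K V) [FiniteDimensional K Z] (h : B ≤ Z) :
    dimQuot Z B + finrank K B = finrank K Z := by
  have h1 := Submodule.finrank_quotient_add_finrank (B.submoduleOf Z)
  rw [(Submodule.submoduleOfEquivOfLe h).finrank_eq] at h1
  exact h1

/-- Two linear maps with the same kernel have ranges of the same dimension. -/
lemma finrank_range_eq_of_ker_eq [FiniteDimensional K V] (f : V →ₗ[K] W) (g : V →ₗ[K] W')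
    (h : ∀ v, f v = 0 ↔ g v = 0) :
    finrank K (LinearMap.range f) = finrank K (LinearMap.range g) := by
  have hk : LinearMap.ker f = LinearMap.ker g := by
    ext v; simp only [LinearMap.mem_ker]; exact h v
  have h1 := LinearMap.finrank_range_add_finrank_ker f
  have h2 := LinearMap.finrank_range_add_finrank_ker g
  rw [hk] at h1
  omega

end general

variable {K : Type u} [Field K] (I : Ideal (R K))

/-- The first Koszul differential of `R/I`. -/
abbrev kos1 : (Fin 3 → Quo I) →ₗ[K] Quo I := d1 (var I)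

/-- The second Koszul differential of `R/I`. -/
abbrev kos2 : (Fin 3 → Quo I) →ₗ[K] (Fin 3 → Quo I) := d2 (var I)

/-- The third Koszul differential of `R/I`. -/
abbrev kos3 : Quo I →ₗ[K] (Fin 3 → Quo I) := d3 (var I)

/-- `A_{n-1}` -/
abbrev pr (n : ℕ) : Submodule K (Quo I) := prev (gr I) n

/-- The dimension of Koszul homology. -/
abbrev kD (i n : ℕ) : ℕ := koszulDim (K := K) (var I) (gr I) i n

lemma proj_eq_zero {f : R K} : proj I f = 0 ↔ f ∈ I := Ideal.Quotient.eq_zero_iff_mem

instance forms_finite (n : ℕ) : FiniteDimensional K (forms K n) :=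
  Module.Finite.iff_fg.2 (homogeneousSubmodule_fg (Fin 3) K n)

instance gr_finite (n : ℕ) : FiniteDimensional K (gr I n) := by
  unfold gr; infer_instance

instance pr_finite (n : ℕ) : FiniteDimensional K (pr I n) := by
  cases n with
  | zero => change FiniteDimensional K (⊥ : Submodule K (Quo I)); infer_instance
  | succ n => change FiniteDimensional K (gr I n); infer_instance

variable {I}

lemma mem_gr {n : ℕ} {a : Quo I} :
    a ∈ gr I n ↔ ∃ f ∈ forms K n, proj I f = a := by
  unfold gr
  rw [Submodule.mem_map]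
  rfl

lemma mk_mem_gr {n : ℕ} {f : R K} (hf : f ∈ forms K n) : proj I f ∈ gr I n :=
  mem_gr.2 ⟨f, hf, rfl⟩

/-- triples as a product -/
def triEquiv (N : Submodule K (Quo I)) : tri N ≃ₗ[K] (Fin 3 → N) where
  toFun v := fun j => ⟨v.1 j, v.2 j (Set.mem_univ j)⟩
  invFun w := ⟨fun j => (w j).1, fun j _ => (w j).2⟩
  left_inv _ := rfl
  right_inv _ := rfl
  map_add' _ _ := rfl
  map_smul' _ _ := rfl

instance tri_finite (N : Submodule K (Quo I)) [FiniteDimensional K N] :
    FiniteDimensional K (tri N) :=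
  Module.Finite.equiv (triEquiv N).symm

lemma finrank_tri (N : Submodule K (Quo I)) [FiniteDimensional K N] :
    finrank K (tri N) = 3 * finrank K N := by
  rw [(triEquiv N).finrank_eq, Module.finrank_pi_fintype]
  simp

lemma mem_tri {N : Submodule K (Quo I)} {v : Fin 3 → Quo I} :
    v ∈ tri N ↔ ∀ j, v j ∈ N := by
  unfold tri; simp [Submodule.mem_pi]

lemma var_mul_mem {n : ℕ} (j : Fin 3) {a : Quo I} (ha : a ∈ gr I n) :
    var I j * a ∈ gr I (n + 1) := by
  obtain ⟨f, hf, rfl⟩ := mem_gr.1 ha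
  refine mem_gr.2 ⟨X j * f, ?_, by simp [var]⟩
  have := (isHomogeneous_X K j).mul hf
  rwa [add_comm] at this

lemma var_mul_mem_prev {n : ℕ} (j : Fin 3) {a : Quo I} (ha : a ∈ pr I n) :
    var I j * a ∈ gr I n := by
  cases n with
  | zero =>
    have : a = 0 := by simpa [pr, prev] using ha
    rw [this, mul_zero]; exact zero_mem _
  | succ n => exact var_mul_mem j ha

lemma d1_mem {n : ℕ} {v : Fin 3 → Quo I} (hv : v ∈ tri (pr I n)) : kos1 I v ∈ gr I n := by
  have h := mem_tri.1 hv
  exact add_mem (add_mem (var_mul_mem_prev _ (h 0)) (var_mul_mem_prev _ (h 1)))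
    (var_mul_mem_prev _ (h 2))

lemma d2_mem {n : ℕ} {v : Fin 3 → Quo I} (hv : v ∈ tri (pr I n)) :
    kos2 I v ∈ tri (gr I n) := by
  have h := mem_tri.1 hv
  refine mem_tri.2 fun j => ?_
  fin_cases j
  · exact sub_mem (var_mul_mem_prev _ (h 2)) (var_mul_mem_prev _ (h 1))
  · exact sub_mem (var_mul_mem_prev _ (h 0)) (var_mul_mem_prev _ (h 2))
  · exact sub_mem (var_mul_mem_prev _ (h 1)) (var_mul_mem_prev _ (h 0))

lemma d3_mem {n : ℕ} {a : Quo I} (ha : a ∈ pr I n) : kos3 I a ∈ tri (gr I n) :=
  mem_tri.2 fun j => var_mul_mem_prev j ha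

lemma d1_d2 (v : Fin 3 → Quo I) : kos1 I (kos2 I v) = 0 := by
  change var I 0 * (var I 1 * v 2 - var I 2 * v 1) + var I 1 * (var I 2 * v 0 - var I 0 * v 2) +
    var I 2 * (var I 0 * v 1 - var I 1 * v 0) = 0
  ring

lemma d2_d3 (a : Quo I) : kos2 I (kos3 I a) = 0 := by
  funext j
  fin_cases j
  · change var I 1 * (var I 2 * a) - var I 2 * (var I 1 * a) = 0
    ring
  · change var I 2 * (var I 0 * a) - var I 0 * (var I 2 * a) = 0
    ring
  · change var I 0 * (var I 1 * a) - var I 1 * (var I 0 * a) = 0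
    ring

variable (I)

lemma koszul0 (n : ℕ) : kD I 0 n + finrank K ((tri (pr I n)).map (kos1 I)) =
    finrank K (gr I n) := by
  refine dimQuot_add _ _ ?_
  rw [Submodule.map_le_iff_le_comap]
  exact fun v hv => d1_mem hv

lemma koszul1 (n : ℕ) : kD I 1 n + finrank K ((tri (pr I n)).map (kos2 I)) +
    finrank K ((tri (gr I n)).map (kos1 I)) = 3 * finrank K (gr I n) := by
  have h1 : kD I 1 n + finrank K ((tri (pr I n)).map (kos2 I)) =
      finrank K ↥(LinearMap.ker (kos1 I) ⊓ tri (gr I n)) := by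
    refine dimQuot_add (LinearMap.ker (kos1 I) ⊓ tri (gr I n)) _ ?_
    rw [Submodule.map_le_iff_le_comap]
    exact fun v hv => ⟨d1_d2 v, d2_mem hv⟩
  rw [h1, finrank_ker_inf_add_map, finrank_tri]

lemma koszul2 (n : ℕ) : kD I 2 n + finrank K ((pr I n).map (kos3 I)) +
    finrank K ((tri (gr I n)).map (kos2 I)) = 3 * finrank K (gr I n) := by
  have h1 : kD I 2 n + finrank K ((pr I n).map (kos3 I)) =
      finrank K ↥(LinearMap.ker (kos2 I) ⊓ tri (gr I n)) := by
    refine dimQuot_add (LinearMap.ker (kos2 I) ⊓ tri (gr I n)) _ ?_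
    rw [Submodule.map_le_iff_le_comap]
    exact fun v hv => ⟨d2_d3 v, d3_mem hv⟩
  rw [h1, finrank_ker_inf_add_map, finrank_tri]

lemma koszul3 (n : ℕ) : kD I 3 n + finrank K ((gr I n).map (kos3 I)) =
    finrank K (gr I n) := by
  exact finrank_ker_inf_add_map _ _

lemma koszulDim_le (i n : ℕ) : kD I i n ≤ 3 * finrank K (gr I n) := by
  match i with
  | 0 => have := koszul0 I n; omega
  | 1 => have := koszul1 I n; omega
  | 2 => have := koszul2 I n; omega
  | 3 => have := koszul3 I n; omega
  | i + 4 => simp [koszulDim]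

/-- The Koszul dimensions of two ideals agree if all ranks agree. -/
lemma koszulDim_congr {I J : Ideal (R K)} (h : ∀ n, finrank K (gr I n) = finrank K (gr J n))
    (h1 : ∀ n, finrank K ((tri (gr I n)).map (kos1 I)) = finrank K ((tri (gr J n)).map (kos1 J)))
    (h2 : ∀ n, finrank K ((tri (gr I n)).map (kos2 I)) = finrank K ((tri (gr J n)).map (kos2 J)))
    (h3 : ∀ n, finrank K ((gr I n).map (kos3 I)) = finrank K ((gr J n).map (kos3 J))) (i n : ℕ) :
    kD I i n = kD J i n := by
  have p1 : finrank K ((tri (pr I n)).map (kos1 I)) =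
      finrank K ((tri (pr J n)).map (kos1 J)) := by
    cases n with
    | zero =>
      have e1 : tri (pr I 0) = ⊥ := by
        ext v; rw [mem_tri]; simp [pr, prev, _root_.funext_iff]
      have e2 : tri (pr J 0) = ⊥ := by
        ext v; rw [mem_tri]; simp [pr, prev, _root_.funext_iff]
      rw [e1, e2, Submodule.map_bot, Submodule.map_bot, finrank_bot, finrank_bot]
    | succ n => exact h1 n
  have p2 : finrank K ((tri (pr I n)).map (kos2 I)) =
      finrank K ((tri (pr J n)).map (kos2 J)) := by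
    cases n with
    | zero =>
      have e1 : tri (pr I 0) = ⊥ := by
        ext v; rw [mem_tri]; simp [pr, prev, _root_.funext_iff]
      have e2 : tri (pr J 0) = ⊥ := by
        ext v; rw [mem_tri]; simp [pr, prev, _root_.funext_iff]
      rw [e1, e2, Submodule.map_bot, Submodule.map_bot, finrank_bot, finrank_bot]
    | succ n => exact h2 n
  have p3 : finrank K ((pr I n).map (kos3 I)) = finrank K ((pr J n).map (kos3 J)) := by
    cases n with
    | zero =>
      have e1 : pr I 0 = ⊥ := rfl
      have e2 : pr J 0 = ⊥ := rfl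
      rw [e1, e2, Submodule.map_bot, Submodule.map_bot, finrank_bot, finrank_bot]
    | succ n => exact h3 n
  have hn := h n
  have q1 := h1 n
  have q2 := h2 n
  have q3 := h3 n
  match i with
  | 0 => have a := koszul0 I n; have b := koszul0 J n; omega
  | 1 => have a := koszul1 I n; have b := koszul1 J n; omega
  | 2 => have a := koszul2 I n; have b := koszul2 J n; omega
  | 3 => have a := koszul3 I n; have b := koszul3 J n; omega
  | i + 4 => simp [koszulDim]

/-- The maps `v ↦ d_i v` on representatives. -/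
def L1 (n : ℕ) : (Fin 3 → forms K n) →ₗ[K] (Quo I) :=
  kos1 I ∘ₗ LinearMap.pi fun j => (proj I).toLinearMap ∘ₗ
    (forms K n).subtype ∘ₗ LinearMap.proj j

def L2 (n : ℕ) : (Fin 3 → forms K n) →ₗ[K] (Fin 3 → Quo I) :=
  kos2 I ∘ₗ LinearMap.pi fun j => (proj I).toLinearMap ∘ₗ
    (forms K n).subtype ∘ₗ LinearMap.proj j

def L3 (n : ℕ) : (forms K n) →ₗ[K] (Fin 3 → Quo I) :=
  kos3 I ∘ₗ (proj I).toLinearMap ∘ₗ (forms K n).subtype

lemma L1_apply (n : ℕ) (v : Fin 3 → forms K n) : L1 I n v =
    proj I (X 0 * (v 0 : R K) + X 1 * (v 1 : R K) + X 2 * (v 2 : R K)) := by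
  simp [L1, d1, var]

lemma L2_apply (n : ℕ) (v : Fin 3 → forms K n) : L2 I n v =
    ![proj I (X 1 * (v 2 : R K) - X 2 * (v 1 : R K)),
      proj I (X 2 * (v 0 : R K) - X 0 * (v 2 : R K)),
      proj I (X 0 * (v 1 : R K) - X 1 * (v 0 : R K))] := by
  simp [L2, d2, cross, var]

lemma L3_apply (n : ℕ) (f : forms K n) : L3 I n f =
    fun j => proj I (X j * (f : R K)) := by
  funext j
  simp [L3, d3, var]

lemma range_L1 (n : ℕ) : LinearMap.range (L1 I n) = (tri (gr I n)).map (kos1 I) := by
  unfold L1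
  rw [LinearMap.range_comp]
  congr 1
  ext w
  rw [mem_tri]
  constructor
  · rintro ⟨v, rfl⟩ j
    exact mk_mem_gr (v j).2
  · intro h
    choose f hf hfw using fun j => mem_gr.1 (h j)
    exact ⟨fun j => ⟨f j, hf j⟩, funext fun j => hfw j⟩

lemma range_L2 (n : ℕ) : LinearMap.range (L2 I n) = (tri (gr I n)).map (kos2 I) := by
  unfold L2
  rw [LinearMap.range_comp]
  congr 1
  ext w
  rw [mem_tri]
  constructor
  · rintro ⟨v, rfl⟩ j
    exact mk_mem_gr (v j).2
  · intro h
    choose f hf hfw using fun j => mem_gr.1 (h j)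
    exact ⟨fun j => ⟨f j, hf j⟩, funext fun j => hfw j⟩

lemma range_L3 (n : ℕ) : LinearMap.range (L3 I n) = (gr I n).map (kos3 I) := by
  unfold L3
  rw [LinearMap.range_comp, LinearMap.range_comp, Submodule.range_subtype]
  rfl

end Pool.Agent.H70.Betti
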